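import Mathlib

set_option autoImplicit false
open Set

namespace Pool.Agent.Results.MP_f06e6c_an.MinimalUpperHalf

/-- The map `f₀` of the Alsedà–Misiurewicz system with parameters `(x₀, y₀)`: slope
`a₀ = y₀ / x₀` on `x ≤ x₀` and slope `a₁ = (1 - y₀) / (1 - x₀)` on `x > x₀`. -/
noncomputable def f0 (x₀ y₀ x : ℝ) : ℝ :=
  if x ≤ x₀ then y₀ / x₀ * x else (1 - y₀) / (1 - x₀) * (x - 1) + 1

/-- The map `f₁ x = 1 - f₀ (1 - x)`. -/
noncomputable def f1 (x₀ y₀ x : ℝ) : ℝ := 1 - f0 x₀ y₀ (1 - x)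

/-- The orbit of `x`: all points `f_{i_n} ∘ ⋯ ∘ f_{i_1} x`, `n ≥ 0`; the word `i_1, …, i_n` is
encoded by a list of Booleans, `false` for `f₀` and `true` for `f₁`. -/
def orbit (x₀ y₀ x : ℝ) : Set ℝ :=
  {z | ∃ w : List Bool, z = w.foldl (fun y b => cond b (f1 x₀ y₀ y) (f0 x₀ y₀ y)) x}

section
variable {x₀ y₀ : ℝ}

/-- forward invariant nonempty subset of `(0,1)` -/
def Inv (x₀ y₀ : ℝ) (O : Set ℝ) : Prop :=
  O.Nonempty ∧ O ⊆ Ioo 0 1 ∧ (∀ z ∈ O, f0 x₀ y₀ z ∈ O) ∧ (∀ z ∈ O, f1 x₀ y₀ z ∈ O)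

def refl (O : Set ℝ) : Set ℝ := {z | 1 - z ∈ O}

lemma Inv.refl {O : Set ℝ} (h : Inv x₀ y₀ O) : Inv x₀ y₀ (refl O) := by
  obtain ⟨⟨z, hz⟩, h1, h2, h3⟩ := h
  refine ⟨⟨1 - z, ?_⟩, ?_, ?_, ?_⟩
  · show 1 - (1 - z) ∈ O
    rwa [sub_sub_cancel]
  · intro w hw
    have := h1 hw
    exact ⟨by linarith [this.2], by linarith [this.1]⟩
  · intro w hw
    have := h3 _ hw
    unfold f1 at this
    rw [sub_sub_cancel] at this
    exact this
  · intro w hw
    have := h2 _ hw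
    show 1 - f1 x₀ y₀ w ∈ O
    unfold f1
    rwa [sub_sub_cancel]

/-- the open interval `(l, r)` misses `O` -/
def Av (O : Set ℝ) (l r : ℝ) : Prop := ∀ z ∈ O, z ≤ l ∨ r ≤ z

lemma Av.refl {O : Set ℝ} {l r : ℝ} (h : Av O l r) : Av (refl O) (1 - r) (1 - l) := by
  intro z hz
  rcases h _ hz with h | h
  · right; linarith
  · left; linarith

/-- the inverse of `f₀` -/
noncomputable def g (x₀ y₀ x : ℝ) : ℝ :=
  if x ≤ y₀ then x₀ / y₀ * x else 1 - (1 - x₀) / (1 - y₀) * (1 - x)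

lemma f0_gt (hx : x₀ < 1) (hy : 1 / 2 ≤ y₀) (hyx : y₀ < x₀) {l z : ℝ} (h : g x₀ y₀ l < z) :
    l < f0 x₀ y₀ z := by
  have hy0 : 0 < y₀ := by linarith
  have hx0 : 0 < x₀ := by linarith
  have hy1 : 0 < 1 - y₀ := by linarith
  have hx1 : 0 < 1 - x₀ := by linarith
  unfold g at h
  unfold f0
  split_ifs at h with h1 <;> split_ifs with h2
  · have h3 : y₀ / x₀ * (x₀ / y₀ * l) < y₀ / x₀ * z := mul_lt_mul_of_pos_left h (by positivity)
    have h4 : y₀ / x₀ * (x₀ / y₀ * l) = l := by field_simp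
    linarith
  · push Not at h2
    have h3 : (1 - y₀) / (1 - x₀) * (x₀ - 1) < (1 - y₀) / (1 - x₀) * (z - 1) :=
      mul_lt_mul_of_pos_left (by linarith) (by positivity)
    have h4 : (1 - y₀) / (1 - x₀) * (x₀ - 1) = -(1 - y₀) := by
      field_simp; ring
    linarith
  · push Not at h1
    exfalso
    have h3 : (1 - x₀) / (1 - y₀) * (1 - l) < (1 - x₀) / (1 - y₀) * (1 - y₀) :=
      mul_lt_mul_of_pos_left (by linarith) (by positivity)
    have h4 : (1 - x₀) / (1 - y₀) * (1 - y₀) = 1 - x₀ := by field_simp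
    linarith
  · have h3 : (1 - y₀) / (1 - x₀) * ((1 - (1 - x₀) / (1 - y₀) * (1 - l)) - 1) <
        (1 - y₀) / (1 - x₀) * (z - 1) :=
      mul_lt_mul_of_pos_left (by linarith) (by positivity)
    have h4 : (1 - y₀) / (1 - x₀) * ((1 - (1 - x₀) / (1 - y₀) * (1 - l)) - 1) = l - 1 := by
      field_simp; ring
    linarith

lemma f0_lt (hx : x₀ < 1) (hy : 1 / 2 ≤ y₀) (hyx : y₀ < x₀) {r z : ℝ} (h : z < g x₀ y₀ r) :
    f0 x₀ y₀ z < r := by
  have hy0 : 0 < y₀ := by linarith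
  have hx0 : 0 < x₀ := by linarith
  have hy1 : 0 < 1 - y₀ := by linarith
  have hx1 : 0 < 1 - x₀ := by linarith
  unfold g at h
  unfold f0
  split_ifs at h with h1 <;> split_ifs with h2
  · have h3 : y₀ / x₀ * z < y₀ / x₀ * (x₀ / y₀ * r) := mul_lt_mul_of_pos_left h (by positivity)
    have h4 : y₀ / x₀ * (x₀ / y₀ * r) = r := by field_simp
    linarith
  · push Not at h2
    exfalso
    have h3 : x₀ / y₀ * r ≤ x₀ / y₀ * y₀ := mul_le_mul_of_nonneg_left h1 (by positivity)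
    have h4 : x₀ / y₀ * y₀ = x₀ := by field_simp
    linarith
  · push Not at h1
    have h3 : y₀ / x₀ * z ≤ y₀ / x₀ * x₀ := mul_le_mul_of_nonneg_left h2 (by positivity)
    have h4 : y₀ / x₀ * x₀ = y₀ := by field_simp
    linarith
  · have h3 : (1 - y₀) / (1 - x₀) * (z - 1) <
        (1 - y₀) / (1 - x₀) * ((1 - (1 - x₀) / (1 - y₀) * (1 - r)) - 1) :=
      mul_lt_mul_of_pos_left (by linarith) (by positivity)
    have h4 : (1 - y₀) / (1 - x₀) * ((1 - (1 - x₀) / (1 - y₀) * (1 - r)) - 1) = r - 1 := by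
      field_simp; ring
    linarith

lemma lt_g (hx : x₀ < 1) (hy : 1 / 2 ≤ y₀) (hyx : y₀ < x₀) {x : ℝ} (h0 : 0 < x) (h1 : x < 1) :
    x < g x₀ y₀ x := by
  have hy0 : 0 < y₀ := by linarith
  have hy1 : 0 < 1 - y₀ := by linarith
  unfold g
  split_ifs with h
  · have : 1 < x₀ / y₀ := by rw [one_lt_div hy0]; exact hyx
    nlinarith
  · have : (1 - x₀) / (1 - y₀) < 1 := by rw [div_lt_one hy1]; linarith
    nlinarith

lemma Av.pull (hx : x₀ < 1) (hy : 1 / 2 ≤ y₀) (hyx : y₀ < x₀) {O : Set ℝ} (hO : Inv x₀ y₀ O)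
    {l r : ℝ} (h : Av O l r) : Av O (g x₀ y₀ l) (g x₀ y₀ r) := by
  intro z hz
  by_contra hcon
  push Not at hcon
  have h1 := f0_gt hx hy hyx hcon.1
  have h2 := f0_lt hx hy hyx hcon.2
  rcases h _ (hO.2.2.1 z hz) with h | h <;> linarith

/-- overlapping intervals are impossible -/
lemma no_overlap (hx : x₀ < 1) (hy : 1 / 2 ≤ y₀) (hyx : y₀ < x₀) {O : Set ℝ} (hO : Inv x₀ y₀ O)
    {l r : ℝ} (hl : 0 < l) (hlr : l < r) (hr : r < 1) (h : Av O l r) : r ≤ g x₀ y₀ l := by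
  by_contra hcon
  push Not at hcon
  -- no point of `O` above `l`
  have hA : ∀ z ∈ O, z ≤ l := by
    by_contra hne
    push Not at hne
    obtain ⟨z₀, hz₀, hz₀l⟩ := hne
    set T := O ∩ Ioi l with hT
    have hTne : T.Nonempty := ⟨z₀, hz₀, hz₀l⟩
    have hTb : BddBelow T := ⟨l, fun z hz => hz.2.le⟩
    set m := sInf T with hm
    have hmr : r ≤ m := by
      apply le_csInf hTne
      intro z hz
      rcases h z hz.1 with h | h
      · exact absurd hz.2 (not_lt.2 h)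
      · exact h
    have hm1 : m < 1 := (csInf_le hTb ⟨hz₀, hz₀l⟩).trans_lt (hO.2.1 hz₀).2
    have hkey : g x₀ y₀ m ≤ m := by
      apply le_csInf hTne
      intro z hz
      by_contra hzm
      push Not at hzm
      have h1 : f0 x₀ y₀ z < m := f0_lt hx hy hyx hzm
      have h2 : m ≤ z := csInf_le hTb hz
      have h3 : l < f0 x₀ y₀ z := f0_gt hx hy hyx (by linarith)
      have h4 : m ≤ f0 x₀ y₀ z := csInf_le hTb ⟨hO.2.2.1 z hz.1, h3⟩
      linarith
    have := lt_g hx hy hyx (x := m) (by linarith) hm1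
    linarith
  -- supremum argument
  have hb : BddAbove O := ⟨l, hA⟩
  set s := sSup O with hs
  have hsl : s ≤ l := csSup_le hO.1 hA
  obtain ⟨z₁, hz₁⟩ := hO.1
  have hs0 : 0 < s := (hO.2.1 hz₁).1.trans_le (le_csSup hb hz₁)
  have h1 := lt_g hx hy hyx (x := 1 - s) (by linarith) (by linarith)
  have h2 : s ≤ 1 - g x₀ y₀ (1 - s) := by
    apply csSup_le hO.1
    intro z hz
    by_contra hcon'
    push Not at hcon'
    have h3 : f0 x₀ y₀ (1 - z) < 1 - s := f0_lt hx hy hyx (by linarith)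
    have h4 : f1 x₀ y₀ z ≤ s := le_csSup hb (hO.2.2.2 z hz)
    unfold f1 at h4
    linarith
  linarith

/-- rescaling near `0` -/
lemma exists_scale (hx : x₀ < 1) (hy : 1 / 2 ≤ y₀) (hyx : y₀ < x₀) {O : Set ℝ}
    (hO : Inv x₀ y₀ O) (n : ℕ) :
    ∀ l r : ℝ, 0 < l → l < r → r ≤ y₀ → y₀ < (x₀ / y₀) ^ n * r → Av O l r →
      ∃ l' r', 0 < l' ∧ l' < r' ∧ y₀ < r' ∧ r' ≤ x₀ ∧ r' / l' = r / l ∧ Av O l' r' := by
  have hy0 : 0 < y₀ := by linarith
  have hx0 : 0 < x₀ := by linarith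
  induction n with
  | zero =>
    intro l r _ _ h1 h2
    rw [pow_zero, one_mul] at h2
    linarith
  | succ n ih =>
    intro l r hl hlr hr hn hA
    have hq : 0 < x₀ / y₀ := by positivity
    have hA' := hA.pull hx hy hyx hO
    have e1 : g x₀ y₀ l = x₀ / y₀ * l := by unfold g; rw [if_pos (by linarith)]
    have e2 : g x₀ y₀ r = x₀ / y₀ * r := by unfold g; rw [if_pos hr]
    rw [e1, e2] at hA'
    have e3 : x₀ / y₀ * r / (x₀ / y₀ * l) = r / l := by
      field_simp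
    by_cases h : x₀ / y₀ * r ≤ y₀
    · obtain ⟨l', r', h1, h2, h3, h4, h5, h6⟩ := ih (x₀ / y₀ * l) (x₀ / y₀ * r) (by positivity)
        (mul_lt_mul_of_pos_left hlr hq) h (by rw [← mul_assoc, ← pow_succ]; exact hn) hA'
      exact ⟨l', r', h1, h2, h3, h4, h5.trans e3, h6⟩
    · push Not at h
      refine ⟨_, _, by positivity, mul_lt_mul_of_pos_left hlr hq, h, ?_, e3, hA'⟩
      calc x₀ / y₀ * r ≤ x₀ / y₀ * y₀ := mul_le_mul_of_nonneg_left hr hq.le
        _ = x₀ := by field_simp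

lemma key {a b : ℝ} (ha : 1 / 2 ≤ a) (hab : a ≤ b) (_ : b < 1) :
    (1 + 4 * (b - a) ^ 2) * (b * (1 - b)) ≤ a * (1 - a) := by
  have h1 : 4 * (b * (1 - b)) ≤ 1 := by nlinarith [sq_nonneg (2 * b - 1)]
  have h2 : (b - a) ^ 2 ≤ a * (1 - a) - b * (1 - b) := by nlinarith
  have h3 : (b - a) ^ 2 * (4 * (b * (1 - b))) ≤ (b - a) ^ 2 * 1 :=
    mul_le_mul_of_nonneg_left h1 (sq_nonneg _)
  nlinarith

/-- one step of the growth argument -/
lemma step (hx : x₀ < 1) (hy : 1 / 2 ≤ y₀) (hyx : y₀ < x₀) {O : Set ℝ} (hO : Inv x₀ y₀ O)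
    {l r : ℝ} (hl : 0 < l) (hlr : l < r) (hr : y₀ < r) (hrx : r ≤ x₀) (h : Av O l r) :
    ∃ l' r', 1 / 2 ≤ l' ∧ l' < r' ∧ r' < 1 ∧ Av O l' r' ∧
      (1 + 2 * (r - l) ^ 2) * (r / l) ≤ (1 - l') / (1 - r') := by
  have hy0 : 0 < y₀ := by linarith
  have hx0 : 0 < x₀ := by linarith
  have hy1 : 0 < 1 - y₀ := by linarith
  have hx1 : 0 < 1 - x₀ := by linarith
  have hr1 : 0 < 1 - r := by linarith
  by_cases hly : y₀ ≤ l
  · refine ⟨l, r, by linarith, hlr, by linarith, h, ?_⟩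
    have h1 := key (a := l) (b := r) (by linarith) hlr.le (by linarith)
    rw [← mul_div_assoc, div_le_div_iff₀ hl hr1]
    have h2 : 0 ≤ 2 * (r - l) ^ 2 * (r * (1 - r)) := by
      have : 0 < r := by linarith
      positivity
    nlinarith
  · push Not at hly
    have hno := no_overlap hx hy hyx hO hl hlr (by linarith) h
    have e1 : g x₀ y₀ l = x₀ / y₀ * l := by unfold g; rw [if_pos hly.le]
    have e2 : g x₀ y₀ r = 1 - (1 - x₀) / (1 - y₀) * (1 - r) := by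
      unfold g; rw [if_neg (not_le.2 hr)]
    have hA := h.pull hx hy hyx hO
    rw [e1] at hno hA
    rw [e2] at hA
    set u := x₀ / y₀ * l with hu
    have hux : u < x₀ := by
      calc x₀ / y₀ * l < x₀ / y₀ * y₀ := mul_lt_mul_of_pos_left hly (by positivity)
        _ = x₀ := by field_simp
    have hv : x₀ < 1 - (1 - x₀) / (1 - y₀) * (1 - r) := by
      have : (1 - x₀) / (1 - y₀) * (1 - r) < (1 - x₀) / (1 - y₀) * (1 - y₀) :=
        mul_lt_mul_of_pos_left (by linarith) (by positivity)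
      have h4 : (1 - x₀) / (1 - y₀) * (1 - y₀) = 1 - x₀ := by field_simp
      linarith
    have hv1 : 0 < (1 - x₀) / (1 - y₀) * (1 - r) := by positivity
    refine ⟨u, _, by linarith, hux.trans hv, by linarith, hA, ?_⟩
    rw [sub_sub_cancel]
    have hl' : l = y₀ / x₀ * u := by rw [hu]; field_simp
    have hul : y₀ - l ≤ x₀ - u := by
      have h1 : x₀ - u = x₀ / y₀ * (y₀ - l) := by rw [hu]; field_simp
      have h2 : 1 < x₀ / y₀ := by rw [one_lt_div hy0]; exact hyx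
      rw [h1]; nlinarith
    have hu0 : 0 < u := by linarith
    have hr0 : 0 < r := by linarith
    have k1 := key (a := u) (b := x₀) (by linarith) hux.le hx
    have k2 := key (a := y₀) (b := r) hy hr.le (by linarith)
    have e3 : (1 + 2 * (r - l) ^ 2) * (r / l) =
        ((1 + 2 * (r - l) ^ 2) * (r * x₀)) / (y₀ * u) := by
      conv_lhs => rw [show r / l = r * x₀ / (y₀ * u) by rw [hl']; field_simp]
      ring
    have e4 : (1 - u) / ((1 - x₀) / (1 - y₀) * (1 - r)) =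
        ((1 - u) * (1 - y₀)) / ((1 - x₀) * (1 - r)) := by
      field_simp
    rw [e3, e4, div_le_div_iff₀ (by positivity) (by positivity)]
    have k3 : (1 + 4 * (x₀ - u) ^ 2) * (x₀ * (1 - x₀)) * ((1 + 4 * (r - y₀) ^ 2) * (r * (1 - r))) ≤
        u * (1 - u) * (y₀ * (1 - y₀)) := by
      apply mul_le_mul k1 k2 (by positivity)
      have : 0 < 1 - u := by linarith
      positivity
    have k4 : 1 + 2 * (r - l) ^ 2 ≤ (1 + 4 * (x₀ - u) ^ 2) * (1 + 4 * (r - y₀) ^ 2) := by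
      have h1 : (r - l) ^ 2 ≤ ((x₀ - u) + (r - y₀)) ^ 2 := by
        apply pow_le_pow_left₀ (by linarith)
        linarith
      have h2 : 0 ≤ (x₀ - u) ^ 2 * (r - y₀) ^ 2 := by positivity
      nlinarith [sq_nonneg ((x₀ - u) - (r - y₀))]
    have k5 : (1 + 2 * (r - l) ^ 2) * (x₀ * (1 - x₀) * (r * (1 - r))) ≤
        (1 + 4 * (x₀ - u) ^ 2) * (1 + 4 * (r - y₀) ^ 2) * (x₀ * (1 - x₀) * (r * (1 - r))) :=
      mul_le_mul_of_nonneg_right k4 (by positivity)
    calc (1 + 2 * (r - l) ^ 2) * (r * x₀) * ((1 - x₀) * (1 - r))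
        = (1 + 2 * (r - l) ^ 2) * (x₀ * (1 - x₀) * (r * (1 - r))) := by ring
      _ ≤ _ := k5
      _ = (1 + 4 * (x₀ - u) ^ 2) * (x₀ * (1 - x₀)) * ((1 + 4 * (r - y₀) ^ 2) * (r * (1 - r))) := by
          ring
      _ ≤ _ := k3
      _ = _ := by ring

lemma growth (hx : x₀ < 1) (hy : 1 / 2 ≤ y₀) (hyx : y₀ < x₀) {ρ : ℝ} (hρ : 1 < ρ) (n : ℕ) :
    ∀ (O : Set ℝ) (l r : ℝ), Inv x₀ y₀ O → 0 < l → l < r → r ≤ 1 / 2 → Av O l r → ρ ≤ r / l →
      2 * (x₀ / y₀) ≤ (1 + 2 * ((1 - 1 / ρ) / 2) ^ 2) ^ n * (r / l) → False := by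
  have hy0 : 0 < y₀ := by linarith
  have hx0 : 0 < x₀ := by linarith
  have hρ0 : 0 < ρ := by linarith
  induction n with
  | zero =>
    intro O l r hO hl hlr hr hA _ h
    rw [pow_zero, one_mul] at h
    have hno := no_overlap hx hy hyx hO hl hlr (by linarith) hA
    have e1 : g x₀ y₀ l = x₀ / y₀ * l := by unfold g; rw [if_pos (by linarith)]
    rw [e1] at hno
    rw [le_div_iff₀ hl] at h
    have : 0 < x₀ / y₀ * l := by positivity
    nlinarith
  | succ n ih =>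
    intro O l r hO hl hlr hr hA hρl h
    have hq : 1 < x₀ / y₀ := by rw [one_lt_div hy0]; exact hyx
    obtain ⟨N, hN⟩ := pow_unbounded_of_one_lt (y₀ / r) hq
    have hr0 : 0 < r := by linarith
    rw [div_lt_iff₀ hr0] at hN
    obtain ⟨l', r', h1, h2, h3, h4, h5, h6⟩ := exists_scale hx hy hyx hO N l r hl hlr
      (by linarith) hN hA
    obtain ⟨l'', r'', i1, i2, i3, i4, i5⟩ := step hx hy hyx hO h1 h2 h3 h4 h6
    rw [h5] at i5
    have hr'0 : 0 < r' := by linarith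
    have hd : (1 - 1 / ρ) / 2 ≤ r' - l' := by
      have j1 : ρ ≤ r' / l' := by rw [h5]; exact hρl
      rw [le_div_iff₀ h1] at j1
      have j2 : l' ≤ r' / ρ := by rw [le_div_iff₀ hρ0]; linarith
      have j3 : r' / ρ = r' * (1 / ρ) := by ring
      have j4 : 1 / ρ < 1 := by rw [div_lt_one hρ0]; exact hρ
      rw [j3] at j2
      nlinarith
    have hd0 : 0 ≤ (1 - 1 / ρ) / 2 := by
      have j4 : 1 / ρ < 1 := by rw [div_lt_one hρ0]; exact hρ
      linarith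
    have hd2 : ((1 - 1 / ρ) / 2) ^ 2 ≤ (r' - l') ^ 2 := pow_le_pow_left₀ hd0 hd 2
    have hrl : 0 < r / l := by positivity
    have hgrow : (1 + 2 * ((1 - 1 / ρ) / 2) ^ 2) * (r / l) ≤ (1 - l'') / (1 - r'') := by
      refine le_trans ?_ i5
      apply mul_le_mul_of_nonneg_right _ hrl.le
      linarith
    refine ih (refl O) (1 - r'') (1 - l'') hO.refl (by linarith) (by linarith) (by linarith)
      i4.refl ?_ ?_
    · refine le_trans ?_ hgrow
      have : 0 ≤ 2 * ((1 - 1 / ρ) / 2) ^ 2 := by positivity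
      nlinarith
    · calc 2 * (x₀ / y₀) ≤ (1 + 2 * ((1 - 1 / ρ) / 2) ^ 2) ^ (n + 1) * (r / l) := h
        _ = (1 + 2 * ((1 - 1 / ρ) / 2) ^ 2) ^ n *
            ((1 + 2 * ((1 - 1 / ρ) / 2) ^ 2) * (r / l)) := by ring
        _ ≤ _ := mul_le_mul_of_nonneg_left hgrow (by positivity)

lemma no_interval_left (hx : x₀ < 1) (hy : 1 / 2 ≤ y₀) (hyx : y₀ < x₀) {O : Set ℝ}
    (hO : Inv x₀ y₀ O) {l r : ℝ} (hl : 0 < l) (hlr : l < r) (hr : r ≤ 1 / 2) : ¬ Av O l r := by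
  intro hA
  have hρ : 1 < r / l := by rw [one_lt_div hl]; exact hlr
  have hρ0 : 0 < r / l := by positivity
  have hq : 1 < 1 + 2 * ((1 - 1 / (r / l)) / 2) ^ 2 := by
    have : 0 < (1 - 1 / (r / l)) / 2 := by
      have j4 : 1 / (r / l) < 1 := by rw [div_lt_one hρ0]; exact hρ
      linarith
    have : 0 < ((1 - 1 / (r / l)) / 2) ^ 2 := by positivity
    linarith
  obtain ⟨N, hN⟩ := pow_unbounded_of_one_lt (2 * (x₀ / y₀) / (r / l)) hq
  rw [div_lt_iff₀ hρ0] at hN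
  exact growth hx hy hyx hρ N O l r hO hl hlr hr hA le_rfl hN.le

/-- every forward invariant nonempty subset of `(0,1)` meets every subinterval -/
lemma no_interval (hx : x₀ < 1) (hy : 1 / 2 ≤ y₀) (hyx : y₀ < x₀) {O : Set ℝ}
    (hO : Inv x₀ y₀ O) {l r : ℝ} (hl : 0 ≤ l) (hlr : l < r) (hr : r ≤ 1) : ¬ Av O l r := by
  intro hA
  by_cases h : l < 1 / 2
  · set r' := min r (1 / 2) with hr'
    have h1 : l < r' := lt_min hlr h
    set l' := (l + r') / 2 with hl'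
    have h2 : l < l' := by rw [hl']; linarith
    have h3 : l' < r' := by rw [hl']; linarith
    refine no_interval_left hx hy hyx hO (l := l') (r := r') (by linarith) h3 (min_le_right _ _) ?_
    intro z hz
    rcases hA z hz with h | h
    · left; linarith
    · right; exact (min_le_left _ _).trans h
  · push Not at h
    set r' := (l + r) / 2 with hr'
    have h2 : l < r' := by rw [hr']; linarith
    have h3 : r' < r := by rw [hr']; linarith
    refine no_interval_left hx hy hyx hO.refl (l := 1 - r') (r := 1 - l) (by linarith)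
      (by linarith) (by linarith) ?_
    apply Av.refl
    intro z hz
    rcases hA z hz with h | h
    · left; exact h
    · right; linarith

lemma f0_mem (hx : x₀ < 1) (hy : 1 / 2 ≤ y₀) (hyx : y₀ < x₀) {z : ℝ} (hz : z ∈ Ioo (0 : ℝ) 1) :
    f0 x₀ y₀ z ∈ Ioo (0 : ℝ) 1 := by
  have hy0 : 0 < y₀ := by linarith
  have hx0 : 0 < x₀ := by linarith
  have hy1 : 0 < 1 - y₀ := by linarith
  have hx1 : 0 < 1 - x₀ := by linarith
  have h0 : g x₀ y₀ 0 = 0 := by unfold g; rw [if_pos hy0.le]; simp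
  have h1 : g x₀ y₀ 1 = 1 := by unfold g; rw [if_neg (by linarith)]; simp
  refine ⟨f0_gt hx hy hyx (by rw [h0]; exact hz.1), f0_lt hx hy hyx (by rw [h1]; exact hz.2)⟩

lemma f1_mem (hx : x₀ < 1) (hy : 1 / 2 ≤ y₀) (hyx : y₀ < x₀) {z : ℝ} (hz : z ∈ Ioo (0 : ℝ) 1) :
    f1 x₀ y₀ z ∈ Ioo (0 : ℝ) 1 := by
  have := f0_mem hx hy hyx (z := 1 - z) ⟨by linarith [hz.2], by linarith [hz.1]⟩
  unfold f1
  exact ⟨by linarith [this.2], by linarith [this.1]⟩

lemma orbit_inv (hx : x₀ < 1) (hy : 1 / 2 ≤ y₀) (hyx : y₀ < x₀) {x : ℝ} (hz : x ∈ Ioo (0 : ℝ) 1) :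
    Inv x₀ y₀ (orbit x₀ y₀ x) := by
  refine ⟨⟨x, [], rfl⟩, ?_, ?_, ?_⟩
  · rintro z ⟨w, rfl⟩
    induction w using List.reverseRecOn with
    | nil => exact hz
    | append_singleton w b ih =>
      rw [List.foldl_append, List.foldl_cons, List.foldl_nil]
      cases b
      · exact f0_mem hx hy hyx ih
      · exact f1_mem hx hy hyx ih
  · rintro z ⟨w, rfl⟩
    exact ⟨w ++ [false], by rw [List.foldl_append, List.foldl_cons, List.foldl_nil]; rfl⟩
  · rintro z ⟨w, rfl⟩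
    exact ⟨w ++ [true], by rw [List.foldl_append, List.foldl_cons, List.foldl_nil]; rfl⟩

end

/-- **Full answer to Q1 (yes).** Under (A1), `1/2 < x₀ < 1` and `1/2 ≤ y₀ < x₀`, the orbit of every
`x ∈ (0,1)` under `f₀, f₁` is dense in `(0,1)`: the Alsedà–Misiurewicz system is minimal. -/
theorem result (x₀ y₀ : ℝ) (hx : 1 / 2 < x₀ ∧ x₀ < 1) (hy : 1 / 2 ≤ y₀ ∧ y₀ < x₀) (x : ℝ)
    (h : x ∈ Ioo (0 : ℝ) 1) : Ioo (0 : ℝ) 1 ⊆ closure (orbit x₀ y₀ x) := by
  intro z hz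
  by_contra hcon
  rw [Metric.mem_closure_iff] at hcon
  push Not at hcon
  obtain ⟨ε, hε, hcon⟩ := hcon
  have hO := orbit_inv hx.2 hy.1 hy.2 h
  refine no_interval hx.2 hy.1 hy.2 hO (l := max 0 (z - ε)) (r := min 1 (z + ε)) (le_max_left _ _)
    ?_ (min_le_left _ _) ?_
  · rw [max_lt_iff, lt_min_iff, lt_min_iff]
    refine ⟨⟨by norm_num, by linarith [hz.1]⟩, by linarith [hz.2], by linarith⟩
  · intro w hw
    have h1 := hcon w hw
    rw [Real.dist_eq] at h1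
    rcases le_abs.1 h1 with h2 | h2
    · left; exact le_max_of_le_right (by linarith)
    · right; exact min_le_of_right_le (by linarith)

end Pool.Agent.Results.MP_f06e6c_an.MinimalUpperHalf
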